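import Pool.Agent.R59.NS.Defs
import Pool.Agent.R59.NS.Thm2

namespace Pool.Agent.Results.MP_7a0182_co.SubchromaticFive

open Pool.Agent.R59.NS

theorem subcol_of_cov {V : Type*} {G : SimpleGraph V} {k : ℕ} (h : Cov G Set.univ k) :
    ∃ c : V → Fin k, IsSubcolouring G c := by
  classical
  obtain ⟨F, hF, hc⟩ := h
  have hc' : ∀ x : V, ∃ j < k, x ∈ F j := fun x => hc x (Set.mem_univ x)
  choose f hf1 hf2 using hc'
  refine ⟨fun x => ⟨f x, hf1 x⟩, ?_⟩
  intro x y z hxy hyz h1 h2 hne
  have e1 : f x = f y := by simpa using hxy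
  have e2 : f y = f z := by simpa using hyz
  rcases hF (f x) x (hf2 x) y (by rw [e1]; exact hf2 y) z (by rw [e1, e2]; exact hf2 z) h1 h2 with h | h
  · exact absurd h hne
  · exact h

theorem sub_le_four {n : ℕ} (hn : n ≤ 14) (G : SimpleGraph (Fin n)) : subchromatic G ≤ 4 := by
  apply Nat.sInf_le
  apply subcol_of_cov
  have h := T7fourteen (G := G) (U := (Finset.univ : Finset (Fin n))) (by simpa using hn)
  simpa using h

/-- the parts of `K_{1,2,3,4,5}` -/
def part : Fin 15 → Fin 5 := ![0, 1, 1, 2, 2, 2, 3, 3, 3, 3, 4, 4, 4, 4, 4]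

/-- the complete multipartite graph `K_{1,2,3,4,5}` -/
def K : SimpleGraph (Fin 15) := (⊤ : SimpleGraph (Fin 5)).comap part

theorem K_adj {x y : Fin 15} : K.Adj x y ↔ part x ≠ part y := by
  simp [K]

theorem part_card (j : Fin 5) : (Finset.univ.filter (fun x => part x = j)).card = j.val + 1 := by
  revert j
  decide

theorem not_four (c : Fin 15 → Fin 4) : ¬ IsSubcolouring K c := by
  classical
  intro hc
  let A : Finset (Fin 4) :=
    Finset.univ.filter (fun i => ∃ x z, x ≠ z ∧ part x = part z ∧ c x = i ∧ c z = i)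
  have hA : ∀ i : Fin 4, ∃ j : Fin 5, i ∈ A → ∀ y, c y = i → part y = j := by
    intro i
    by_cases hi : i ∈ A
    · obtain ⟨x, z, hxz, hp, hx, hz⟩ := (Finset.mem_filter.1 hi).2
      refine ⟨part x, fun _ y hy => ?_⟩
      by_contra hne
      have := hc x y z (by rw [hx, hy]) (by rw [hy, hz]) (K_adj.2 (fun h => hne h.symm))
        (K_adj.2 (fun h => hne (by rw [h, hp]))) hxz
      exact (K_adj.1 this) hp
    · exact ⟨0, fun h => absurd h hi⟩
  choose f hf using hA
  let T : Finset (Fin 5) := A.image f
  have hT : T.card ≤ A.card := Finset.card_image_le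
  have hA4 : A.card ≤ 4 := by
    have := Finset.card_le_univ A
    simpa using this
  have hJ : 5 - A.card ≤ Tᶜ.card := by
    rw [Finset.card_compl]
    simp only [Fintype.card_fin]
    omega
  have hJne : Tᶜ.Nonempty := by
    rw [← Finset.card_pos]
    omega
  set j := Tᶜ.max' hJne with hj
  have hjmem : j ∈ Tᶜ := Finset.max'_mem _ _
  have hJj : Tᶜ.card ≤ j.val + 1 := by
    have hsub : Tᶜ ⊆ Finset.Iic j := by
      intro i hi
      rw [Finset.mem_Iic]
      exact Finset.le_max' _ i hi
    have := Finset.card_le_card hsub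
    rwa [Fin.card_Iic] at this
  have hinj : (Finset.univ.filter (fun x => part x = j)).card ≤ (Aᶜ).card := by
    apply Finset.card_le_card_of_injOn c
    · intro x hx
      have hx' : part x = j := (Finset.mem_filter.1 (Finset.mem_coe.1 hx)).2
      rw [Finset.mem_coe, Finset.mem_compl]
      intro hcx
      have := hf (c x) hcx x rfl
      rw [hx'] at this
      have hjT : j ∈ T := by rw [this]; exact Finset.mem_image_of_mem f hcx
      exact (Finset.mem_compl.1 hjmem) hjT
    · intro x hx z hz hxz
      have hx' : part x = j := (Finset.mem_filter.1 (Finset.mem_coe.1 hx)).2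
      have hz' : part z = j := (Finset.mem_filter.1 (Finset.mem_coe.1 hz)).2
      by_contra hne
      have hcx : c x ∈ A :=
        Finset.mem_filter.2 ⟨Finset.mem_univ _, x, z, hne, by rw [hx', hz'], rfl, hxz.symm⟩
      have := hf (c x) hcx x rfl
      rw [hx'] at this
      have hjT : j ∈ T := by rw [this]; exact Finset.mem_image_of_mem f hcx
      exact (Finset.mem_compl.1 hjmem) hjT
  rw [part_card, Finset.card_compl, Fintype.card_fin] at hinj
  omega

theorem K_sub : subchromatic K = 5 := by
  apply le_antisymm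
  · apply Nat.sInf_le
    refine ⟨part, ?_⟩
    intro x y z hxy _ h _ _
    exact absurd hxy (K_adj.1 h)
  · apply le_csInf
    · refine ⟨5, part, ?_⟩
      intro x y z hxy _ h _ _
      exact absurd hxy (K_adj.1 h)
    · rintro k ⟨c, hc⟩
      by_contra hk
      have hk4 : k ≤ 4 := by omega
      apply not_four (fun x => Fin.castLE hk4 (c x))
      intro x y z hxy hyz
      apply hc x y z
      · exact Fin.castLE_injective hk4 hxy
      · exact Fin.castLE_injective hk4 hyz

/-- The least number of vertices of a graph with subchromatic number five is fifteen. -/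
theorem result : IsLeast {n : ℕ | ∃ G : SimpleGraph (Fin n), subchromatic G = 5} 15 := by
  constructor
  · exact ⟨K, K_sub⟩
  · rintro n ⟨G, hG⟩
    by_contra h
    have := sub_le_four (show n ≤ 14 by omega) G
    omega

end Pool.Agent.Results.MP_7a0182_co.SubchromaticFive
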